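import Pool.Agent.K7.H48.PC.FAV
import Pool.Agent.K7.H48.PC.CONV
import Pool.Agent.K7.H48.PC.GEO
import Pool.Agent.K7.H48.PC.FINAL
import Pool.Agent.K7.H48.PC.POLY
import Pool.Agent.K7.H48.PC.COMBIN
import Pool.Agent.K7.H48.PC.MEANIN
import Pool.Agent.K7.H48.PC.ALT
import Pool.Agent.K7.H48.PC.TRIGZ
import Pool.Agent.K7.H48.PC.COMBALG
import Pool.Agent.K7.H48.PC.MEANTR
import Pool.Agent.K7.H48.PC.LOWER

/-!
# Curves of length at most one and polynomial curves of degree n

For every `n`, every plane curve of length at most `1` has Hausdorff distance (for the max norm)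
at most `1 / (2 (n + 1))` from an algebraic polynomial curve of degree at most `n`, and hence from
a trigonometric polynomial curve of degree at most `n`. On the other hand for every `n` there is a
curve of length at most `1` with distance at least `1 / (3 (n + 2))` from all algebraic polynomial
curves of degree at most `n`, and one with distance at least `1 / (2 (2 n + 1))` from all
trigonometric polynomial curves of degree at most `n`. So `1 / 3 ≤ c₃ ≤ 1 / 2` and
`1 / 4 ≤ c₄ ≤ 1 / 2`.

Upper bounds. Extend the parametrisation of the curve by arc length to an even periodic function;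
its coordinates are Lipschitz functions. An even `2π`-periodic function with Lipschitz constant `M`
is approximated by cosine polynomials of degree less than `N` with error `M π / (2 N)`, since the
kernel `(π - t) / 2` is approximated in `L¹` by a sine polynomial with error `π² / (4 N)` on
`[0, π]`. Cosine polynomials are algebraic polynomials in the cosine.

Lower bounds. A comb with `K + 1` teeth of length `2 e` at distance `2 e` has length `6 e K`. A
curve at distance less than `e` from it is above the line `y = e` near the end of each tooth and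
below it between two teeth; so for a polynomial curve the degree is at least `2 K`. A meander with
`K + 1` strokes of length `2 e` at distance `2 e` has length `2 e (2 K + 1)`. A closed curve at
distance less than `e` from it passes all strokes twice; a trigonometric polynomial of degree `n`
has at most `2 n` zeros in a period, so `K + 1 ≤ n`.
-/

set_option autoImplicit false

namespace Pool.Agent.Results.MP_d7cd59_an.HalfBound

open Pool.Agent.K7.H48.PC

/-- `1 / (3 (n + 2)) ≤ E (H_n²; Γ₁) ≤ 1 / (2 (n + 1))` and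
`1 / (2 (2 n + 1)) ≤ E (T_n²; Γ₁) ≤ 1 / (2 (n + 1))` for every `n`; hence
`1 / 3 ≤ c₃ ≤ 1 / 2` and `1 / 4 ≤ c₄ ≤ 1 / 2`. -/
theorem result :
    (∀ n : ℕ, ENNReal.ofReal (1 / (3 * ((n:ℝ) + 2))) ≤ E (HCurves n) Gamma1 ∧
      E (HCurves n) Gamma1 ≤ ENNReal.ofReal (1 / (2 * ((n:ℝ) + 1)))) ∧
    (∀ n : ℕ, ENNReal.ofReal (1 / (2 * (2 * (n:ℝ) + 1))) ≤ E (TCurves n) Gamma1 ∧
      E (TCurves n) Gamma1 ≤ ENNReal.ofReal (1 / (2 * ((n:ℝ) + 1)))) ∧
    (ENNReal.ofReal (1 / 3) ≤ c3 ∧ c3 ≤ ENNReal.ofReal (1 / 2)) ∧
    (ENNReal.ofReal (1 / 4) ≤ c4 ∧ c4 ≤ ENNReal.ofReal (1 / 2)) := by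
  obtain ⟨u1, u2, u3, u4⟩ := stMain (stConv stFav) stGeo
  obtain ⟨l1, l2, l3, l4⟩ := stLower (stCombIn stPoly) (stMeanderIn stPoly) (stCombAlg stAlt)
    (stMeanderTrig stAlt stTrigZ)
  exact ⟨fun n => ⟨l1 n, u1 n⟩, fun n => ⟨l2 n, u2 n⟩, ⟨l3, u3⟩, ⟨l4, u4⟩⟩

end Pool.Agent.Results.MP_d7cd59_an.HalfBound
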